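import Mathlib
import Pool.Agent.R471.ElatedPell
import Pool.Agent.R471.ElatedGauss

/-!
# The number of cycles of the base-`b` elated function is unbounded

For every `M` there is a base `b` in which the elated function has more than `M` fixed points, all of
them three-digit numbers with leading digit `2`.  They come from the representations of
`17 b² - 63 = 5 w²` as a sum of two squares, where `w` is divisible by a high power of
`457 = 21² + 4²`.
-/

namespace Pool.Agent.Results.MP_096971_nt.UnboundedCycles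

open Pool.Agent.R471.Elated

/-- The base-`b` elated function: the leading base-`b` digit of `a` times the sum of the squares of
all base-`b` digits of `a`.  (`Nat.digits b a` lists the digits starting with the units digit, so its
last entry is the leading digit.) -/
def E (b a : ℕ) : ℕ :=
  (Nat.digits b a).getLastD 0 * ((Nat.digits b a).map (fun d => d ^ 2)).sum

/-- `S` is a cycle of the base-`b` elated function: `S = {x 0, …, x (k - 1)}` for some `k ≥ 1` and
distinct positive integers `x 0, …, x (k - 1)` with `E (x j) = x (j + 1)` for `j + 1 < k` and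
`E (x (k - 1)) = x 0`. -/
def IsCycle (b : ℕ) (S : Finset ℕ) : Prop :=
  ∃ (k : ℕ) (x : ℕ → ℕ), 1 ≤ k ∧ (∀ j < k, 0 < x j) ∧
    (∀ i < k, ∀ j < k, x i = x j → i = j) ∧ (∀ j, j + 1 < k → E b (x j) = x (j + 1)) ∧
    E b (x (k - 1)) = x 0 ∧ S = (Finset.range k).image x

/-- The number of distinct cycles of the base-`b` elated function (as an extended natural number). -/
noncomputable def C (b : ℕ) : ℕ∞ := Set.encard {S : Finset ℕ | IsCycle b S}

lemma fixed (b y z : ℕ) (hb : 2 < b) (hy : y < b) (hz : z < b)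
    (h : 2 * (4 + y ^ 2 + z ^ 2) = 2 * b ^ 2 + y * b + z) :
    E b (2 * b ^ 2 + y * b + z) = 2 * b ^ 2 + y * b + z := by
  have hd : Nat.digits b (2 * b ^ 2 + y * b + z) = [z, y, 2] := by
    have e : 2 * b ^ 2 + y * b + z = z + b * (y + b * 2) := by ring
    rw [e, Nat.digits_add b (by omega) z _ hz (Or.inr (by positivity)),
      Nat.digits_add b (by omega) y _ hy (Or.inr (by norm_num)), Nat.digits_of_lt b 2 (by norm_num) hb]
  unfold E
  rw [hd, ← h]
  simp [List.getLastD]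
  ring

lemma isCycle_of_fixed (b a : ℕ) (ha : 0 < a) (h : E b a = a) : IsCycle b {a} := by
  refine ⟨1, fun _ => a, le_rfl, fun _ _ => ha, ?_, ?_, h, by simp⟩
  · intro i hi j hj _
    omega
  · intro j hj
    omega

/-- Many fixed points in one base. -/
lemma many (M : ℕ) : ∃ b : ℕ, 2 < b ∧ ∃ F : Finset ℕ, M < F.card ∧
    ∀ a ∈ F, 0 < a ∧ E b a = a := by
  classical
  set N0 : ℕ := ⌈2 * Real.pi / Real.arctan (168 / 425)⌉₊ + 1 with hN0
  set m : ℕ := (M + 1) * (N0 + 1) with hm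
  obtain ⟨b, w, hbw, ω, hw⟩ := allV m
  -- parity of `b` and `w`
  have hwodd : w % 2 = 1 := by
    by_contra h
    have h0 : w % 2 = 0 := by omega
    obtain ⟨w', rfl⟩ : (2 : ℤ) ∣ w := Int.dvd_of_emod_eq_zero h0
    have h1 : b ^ 2 % 4 = 3 := by
      have h2 : 17 * b ^ 2 = 63 + 20 * w' ^ 2 := by linarith [hbw, (by ring : 5 * (2 * w') ^ 2 = 20 * w' ^ 2)]
      omega
    rcases Int.emod_two_eq_zero_or_one b with h3 | h3
    · obtain ⟨c, rfl⟩ : (2 : ℤ) ∣ b := Int.dvd_of_emod_eq_zero h3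
      have : (2 * c) ^ 2 = 4 * c ^ 2 := by ring
      omega
    · obtain ⟨c, hc⟩ : ∃ c, b = 2 * c + 1 := ⟨b / 2, by omega⟩
      have : b ^ 2 = 4 * (c ^ 2 + c) + 1 := by rw [hc]; ring
      omega
  have hbmod : b % 4 = 2 := by
    obtain ⟨c, hc⟩ : ∃ c, w = 2 * c + 1 := ⟨w / 2, by omega⟩
    have h1 : w ^ 2 = 4 * (c * (c + 1)) + 1 := by rw [hc]; ring
    obtain ⟨e, he⟩ : ∃ e, c * (c + 1) = 2 * e := by
      obtain ⟨e, he⟩ := Int.even_mul_succ_self c
      exact ⟨e, by rw [he]; ring⟩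
    have h2 : 17 * b ^ 2 = 68 + 40 * e := by
      have h3 : w ^ 2 = 8 * e + 1 := by rw [h1, he]; ring
      linarith
    have h3 : b ^ 2 % 8 = 4 := by omega
    obtain ⟨f, hf⟩ : ∃ f, b = 4 * f + b % 4 := ⟨b / 4, by omega⟩
    have hb4 := Int.emod_nonneg b (by norm_num : (4 : ℤ) ≠ 0)
    have hb4' := Int.emod_lt_of_pos b (by norm_num : (0 : ℤ) < 4)
    set r := b % 4 with hr
    interval_cases r
    · have : b ^ 2 = 8 * (2 * f ^ 2) := by rw [hf]; ring
      omega
    · have : b ^ 2 = 8 * (2 * f ^ 2 + f) + 1 := by rw [hf]; ring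
      omega
    · rfl
    · have : b ^ 2 = 8 * (2 * f ^ 2 + 3 * f + 1) + 1 := by rw [hf]; ring
      omega
  -- pass to the absolute value of `b`
  obtain ⟨B, hB, hBmod, hBw⟩ : ∃ B : ℤ, 0 < B ∧ B % 4 = 2 ∧ 17 * B ^ 2 - 5 * w ^ 2 = 63 := by
    rcases lt_trichotomy b 0 with h | h | h
    · exact ⟨-b, by omega, by omega, by rw [neg_sq]; exact hbw⟩
    · omega
    · exact ⟨b, h, hbmod, hbw⟩
  -- `ω` and the sign
  have hωodd : ω % 2 = 1 := by
    by_contra h
    have h0 : ω % 2 = 0 := by omega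
    obtain ⟨x, hx⟩ : (2 : ℤ) ∣ ω := Int.dvd_of_emod_eq_zero h0
    rw [hw, hx] at hwodd
    have : (457 : ℤ) ^ (m + 2) * (2 * x) = 2 * (457 ^ (m + 2) * x) := by ring
    omega
  obtain ⟨c, hcω, hc4⟩ : ∃ c : ℤ, c ^ 2 = ω ^ 2 ∧ c % 4 = 3 := by
    rcases (by omega : ω % 4 = 1 ∨ ω % 4 = 3) with h | h
    · exact ⟨-ω, by ring, by omega⟩
    · exact ⟨ω, rfl, h⟩
  have hc0 : c ≠ 0 := by rintro rfl; norm_num at hc4
  set n : ℕ := 2 * (m + 2) with hn
  -- size of `B`
  have hBbig : 100 < B := by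
    have h1 : w ^ 2 = (457 ^ (m + 2)) ^ 2 * ω ^ 2 := by rw [hw]; ring
    have h2 : (1 : ℤ) ≤ ω ^ 2 := by
      have : ω ≠ 0 := by rintro rfl; norm_num at hωodd
      have : 0 < ω ^ 2 := by positivity
      omega
    have h3 : (457 : ℤ) ^ 2 ≤ 457 ^ (m + 2) := pow_le_pow_right₀ (by norm_num) (by omega)
    have h3' : ((457 : ℤ) ^ 2) ^ 2 ≤ (457 ^ (m + 2)) ^ 2 := pow_le_pow_left₀ (by norm_num) h3 2
    have h4 : ((457 : ℤ) ^ 2) ^ 2 ≤ w ^ 2 := by
      rw [h1]
      calc ((457 : ℤ) ^ 2) ^ 2 = ((457 : ℤ) ^ 2) ^ 2 * 1 := by ring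
        _ ≤ (457 ^ (m + 2)) ^ 2 * ω ^ 2 := mul_le_mul h3' h2 (by norm_num) (by positivity)
    by_contra hcon
    push Not at hcon
    have h5 : B ^ 2 ≤ 100 ^ 2 := pow_le_pow_left₀ hB.le hcon 2
    norm_num at h4 h5
    linarith
  -- the good indices
  have hit' : ∀ i : ℕ, ∃ j u v : ℤ, i ≤ M → (∃ j' : ℕ, j = j' ∧ i * (N0 + 1) ≤ j' ∧
      j' ≤ i * (N0 + 1) + N0 ∧ u = c * ((P j' (n - j')).re - 2 * (P j' (n - j')).im) ∧
      v = c * (2 * (P j' (n - j')).re + (P j' (n - j')).im) ∧ 0 < u ∧ 27 * u < 100 * v ∧ v < u) := by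
    intro i
    by_cases hi : i ≤ M
    · obtain ⟨j, h1, h2, u, v, h3⟩ := hit_sector c hc0 n (i * (N0 + 1)) (by
        rw [← hN0, hn, hm]
        have : i * (N0 + 1) ≤ M * (N0 + 1) := Nat.mul_le_mul_right _ hi
        have e : (M + 1) * (N0 + 1) = M * (N0 + 1) + (N0 + 1) := by ring
        omega)
      rw [← hN0] at h2
      exact ⟨j, u, v, fun _ => ⟨j, rfl, h1, h2, h3⟩⟩
    · exact ⟨0, 0, 0, fun h => absurd h hi⟩
  choose jj uu vv huv using hit'
  -- digits
  have key : ∀ i ≤ M, ∃ y z : ℕ, (4 * z : ℤ) = uu i + 1 ∧ (4 * y : ℤ) = vv i + B ∧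
      (y : ℤ) < B ∧ (z : ℤ) < B ∧
      2 * (4 + (y : ℤ) ^ 2 + (z : ℤ) ^ 2) = 2 * B ^ 2 + y * B + z := by
    intro i hi
    obtain ⟨j', _, _, hj2, hu, hv, hu0, huv1, huv2⟩ := huv i hi
    obtain ⟨⟨x1, hx1⟩, ⟨x2, hx2⟩⟩ := P_mod j' (n - j')
    have hnorm := P_norm j' (n - j')
    have hj'n : j' + (n - j') = n := by
      have : i * (N0 + 1) ≤ M * (N0 + 1) := Nat.mul_le_mul_right _ hi
      have e : (M + 1) * (N0 + 1) = M * (N0 + 1) + (N0 + 1) := by ring
      omega
    rw [hj'n] at hnorm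
    have hsum : (uu i) ^ 2 + (vv i) ^ 2 = 17 * B ^ 2 - 63 := by
      have h1 : (uu i) ^ 2 + (vv i) ^ 2 =
          c ^ 2 * 5 * ((P j' (n - j')).re ^ 2 + (P j' (n - j')).im ^ 2) := by
        rw [hu, hv]; ring
      rw [h1, hnorm, hcω]
      have h2 : w ^ 2 = (457 ^ (m + 2)) ^ 2 * ω ^ 2 := by rw [hw]; ring
      have h3 : (457 : ℤ) ^ n = (457 ^ (m + 2)) ^ 2 := by rw [hn, mul_comm 2 (m + 2), pow_mul]
      rw [h3]
      linarith
    have hre : (P j' (n - j')).re = 4 * x1 + 1 := by linarith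
    obtain ⟨c', hc'⟩ : ∃ c', c = 4 * c' + 3 := ⟨c / 4, by omega⟩
    obtain ⟨B', hB'⟩ : ∃ B', B = 4 * B' + 2 := ⟨B / 4, by omega⟩
    have hu4 : uu i = 4 * (4 * c' * x1 + 3 * x1 + c' - 2 * (4 * c' + 3) * x2) + 3 := by
      rw [hu, hre, hx2, hc']; ring
    have hv4 : vv i + B = 4 * (2 * (4 * c' * x1 + 3 * x1 + c' + 1) + (4 * c' + 3) * x2 + B') := by
      rw [hv, hre, hx2, hc', hB']; ring
    have hvpos : 0 < vv i := by omega
    have hvlt : vv i < 3 * B := by
      by_contra hcon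
      push Not at hcon
      have g1 : (3 * B) ^ 2 ≤ (vv i) ^ 2 := pow_le_pow_left₀ (by omega) hcon 2
      have g2 : (vv i) ^ 2 ≤ (uu i) ^ 2 := pow_le_pow_left₀ hvpos.le huv2.le 2
      have g3 : (3 * B) ^ 2 = 9 * B ^ 2 := by ring
      have g4 : 0 ≤ B ^ 2 := sq_nonneg _
      linarith
    have hult : uu i < 4 * B - 1 := by
      by_contra hcon
      push Not at hcon
      have g1 : (4 * B - 1) ^ 2 ≤ (uu i) ^ 2 := pow_le_pow_left₀ (by omega) hcon 2
      have g2 : (27 * uu i) ^ 2 ≤ (100 * vv i) ^ 2 := pow_le_pow_left₀ (by omega) huv1.le 2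
      have g3 : (27 * uu i) ^ 2 = 729 * (uu i) ^ 2 := by ring
      have g4 : (100 * vv i) ^ 2 = 10000 * (vv i) ^ 2 := by ring
      have g5 : (4 * B - 1) ^ 2 = 16 * B ^ 2 - 8 * B + 1 := by ring
      have g6 : 100 * B ≤ B ^ 2 := by
        rw [sq]
        exact mul_le_mul_of_nonneg_right hBbig.le hB.le
      linarith
    refine ⟨(2 * (4 * c' * x1 + 3 * x1 + c' + 1) + (4 * c' + 3) * x2 + B').toNat,
      (4 * c' * x1 + 3 * x1 + c' - 2 * (4 * c' + 3) * x2 + 1).toNat, ?_, ?_, ?_, ?_, ?_⟩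
    · rw [Int.toNat_of_nonneg (by omega)]; linarith
    · rw [Int.toNat_of_nonneg (by omega)]; linarith
    · rw [Int.toNat_of_nonneg (by omega)]; linarith
    · rw [Int.toNat_of_nonneg (by omega)]; linarith
    · rw [Int.toNat_of_nonneg (by omega), Int.toNat_of_nonneg (by omega)]
      set z := (4 * c' * x1 + 3 * x1 + c' - 2 * (4 * c' + 3) * x2 + 1) with hz
      set y := (2 * (4 * c' * x1 + 3 * x1 + c' + 1) + (4 * c' + 3) * x2 + B') with hy
      have e1 : uu i = 4 * z - 1 := by linarith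
      have e2 : vv i = 4 * y - B := by linarith
      rw [e1, e2] at hsum
      have e3 : 8 * (2 * (4 + y ^ 2 + z ^ 2)) = 8 * (2 * B ^ 2 + y * B + z) := by
        linear_combination hsum
      omega
  have key' : ∀ i, ∃ y z : ℕ, i ≤ M → (4 * z : ℤ) = uu i + 1 ∧ (4 * y : ℤ) = vv i + B ∧
      (y : ℤ) < B ∧ (z : ℤ) < B ∧
      2 * (4 + (y : ℤ) ^ 2 + (z : ℤ) ^ 2) = 2 * B ^ 2 + y * B + z := by
    intro i
    by_cases hi : i ≤ M
    · obtain ⟨y, z, h⟩ := key i hi
      exact ⟨y, z, fun _ => h⟩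
    · exact ⟨0, 0, fun h => absurd h hi⟩
  choose yy zz hyz using key'
  obtain ⟨β, hβ⟩ : ∃ β : ℕ, (β : ℤ) = B := ⟨B.toNat, Int.toNat_of_nonneg hB.le⟩
  have hβ2 : 2 < β := by omega
  refine ⟨β, hβ2, (Finset.range (M + 1)).image (fun i => 2 * β ^ 2 + yy i * β + zz i), ?_, ?_⟩
  · rw [Finset.card_image_of_injOn, Finset.card_range]
    · omega
    · intro i hi i' hi' heq
      rw [Finset.mem_coe, Finset.mem_range] at hi hi'
      obtain ⟨a1, a2, a3, a4, _⟩ := hyz i (by omega)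
      obtain ⟨b1, b2, b3, b4, _⟩ := hyz i' (by omega)
      have hz1 : zz i < β := by omega
      have hz2 : zz i' < β := by omega
      have heq' : yy i * β + zz i = yy i' * β + zz i' := by
        simp only at heq
        omega
      have hzz : zz i = zz i' := by
        have h1 := congrArg (fun t => t % β) heq'
        simp only [Nat.mul_add_mod_self_right] at h1
        rwa [Nat.mod_eq_of_lt hz1, Nat.mod_eq_of_lt hz2] at h1
      have hyy : yy i = yy i' := by
        rw [hzz] at heq'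
        exact Nat.eq_of_mul_eq_mul_right (by omega) (Nat.add_right_cancel heq')
      have hu : uu i = uu i' := by
        rw [hzz] at a1; linarith
      have hv : vv i = vv i' := by
        rw [hyy] at a2; linarith
      -- now use the injectivity of `j ↦ P j (n - j)`
      obtain ⟨j1, _, l1, l2, hu1, hv1, _⟩ := huv i (by omega)
      obtain ⟨j2, _, l3, l4, hu2, hv2, _⟩ := huv i' (by omega)
      have hP : P j1 (n - j1) = P j2 (n - j2) := by
        have g1 : c * ((P j1 (n - j1)).re - 2 * (P j1 (n - j1)).im) =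
            c * ((P j2 (n - j2)).re - 2 * (P j2 (n - j2)).im) := by rw [← hu1, ← hu2, hu]
        have g2 : c * (2 * (P j1 (n - j1)).re + (P j1 (n - j1)).im) =
            c * (2 * (P j2 (n - j2)).re + (P j2 (n - j2)).im) := by rw [← hv1, ← hv2, hv]
        have g1' := mul_left_cancel₀ hc0 g1
        have g2' := mul_left_cancel₀ hc0 g2
        apply Zsqrtd.ext
        · linarith
        · linarith
      have hjn : ∀ i₀ j₀ : ℕ, i₀ ≤ M → j₀ ≤ i₀ * (N0 + 1) + N0 → j₀ ≤ n := by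
        intro i₀ j₀ h1 h2
        have : i₀ * (N0 + 1) ≤ M * (N0 + 1) := Nat.mul_le_mul_right _ h1
        have e : (M + 1) * (N0 + 1) = M * (N0 + 1) + (N0 + 1) := by ring
        omega
      have hj : j1 = j2 := by
        rcases lt_trichotomy j1 j2 with h | h | h
        · exact absurd hP (P_inj h (hjn i' j2 (by omega) l4))
        · exact h
        · exact absurd hP.symm (P_inj h (hjn i j1 (by omega) l2))
      subst hj
      rcases lt_trichotomy i i' with h | h | h
      · have : (i + 1) * (N0 + 1) ≤ i' * (N0 + 1) := Nat.mul_le_mul_right _ h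
        have e : (i + 1) * (N0 + 1) = i * (N0 + 1) + (N0 + 1) := by ring
        omega
      · exact h
      · have : (i' + 1) * (N0 + 1) ≤ i * (N0 + 1) := Nat.mul_le_mul_right _ h
        have e : (i' + 1) * (N0 + 1) = i' * (N0 + 1) + (N0 + 1) := by ring
        omega
  · intro a ha
    rw [Finset.mem_image] at ha
    obtain ⟨i, hi, rfl⟩ := ha
    rw [Finset.mem_range] at hi
    obtain ⟨a1, a2, a3, a4, a5⟩ := hyz i (by omega)
    refine ⟨by positivity, ?_⟩
    apply fixed β (yy i) (zz i) hβ2 (by omega) (by omega)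
    rw [← hβ] at a5
    exact_mod_cast a5

/-- The number `C b` of cycles of the base-`b` elated function is unbounded: for every `M` there is a
base `b ≥ 2` with `C b > M`. -/
theorem result : ∀ M : ℕ, ∃ b : ℕ, 2 ≤ b ∧ (M : ℕ∞) < C b := by
  classical
  intro M
  obtain ⟨b, hb, F, hF, h⟩ := many M
  refine ⟨b, hb.le, ?_⟩
  have hsub : ((F.image (fun a => ({a} : Finset ℕ)) : Finset (Finset ℕ)) : Set (Finset ℕ)) ⊆
      {S : Finset ℕ | IsCycle b S} := by
    intro S hS
    rw [Finset.mem_coe, Finset.mem_image] at hS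
    obtain ⟨a, ha, rfl⟩ := hS
    exact isCycle_of_fixed b a (h a ha).1 (h a ha).2
  have h1 := Set.encard_le_encard hsub
  rw [Set.encard_coe_eq_coe_finsetCard,
    Finset.card_image_of_injective _ (fun x y hxy => Finset.singleton_injective hxy)] at h1
  refine lt_of_lt_of_le ?_ h1
  exact_mod_cast hF

end Pool.Agent.Results.MP_096971_nt.UnboundedCycles
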